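import Mathlib
import Pool.Agent.TauStar.Defs
import Pool.Agent.TauStar.Category

/-!
# Tau-star covers whose linear refinement has coinitiality outside `[cov(M), non(M)]`
-/

set_option autoImplicit false

namespace Pool.Agent.Results.MP_b2422a_gt.CoinitialityBounds

open Pool.Agent.TauStar

/-- Let `U` be a sequence of open subsets of the Cantor space with a linear refinement `B`. If the
coinitiality of `B` is smaller than `cov(M)` or larger than `non(M)`, then `U` has an infinite
subfamily which is a gamma-cover. -/
theorem result : ∀ U : ℕ → Set (ℕ → Bool), (∀ n, IsOpen (U n)) →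
    ∀ B : (ℕ → Bool) → Set ℕ, IsLinearRefinement U B →
      (coinitiality B < covM ∨ nonM < coinitiality B) → HasGammaSubcover U :=
  fun U hU B hB h => gamma_of_coinitiality' U hU B hB h

end Pool.Agent.Results.MP_b2422a_gt.CoinitialityBounds
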