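import Mathlib
import Pool.Agent.TauStar.Defs
import Pool.Agent.TSN.Explicit

/-!
# Q1 is about one explicit cover, unless `b = d` is the length of a tower
-/

set_option autoImplicit false

namespace Pool.Agent.Results.MP_b2422a_gt.ExplicitCover

open Pool.Agent.TauStar Pool.Agent.TSN

/-- (1) If `b < d`, or no tower has length `d`, then the Cantor space satisfies `(T* choose Gamma)`
iff the explicit cover, which has no gamma-subcover, is not a tau-star cover.
(2) In ZFC: if some open cover without gamma-subcover has a linear refinement whose coinitiality is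
less than `d` or greater than `b`, then the explicit cover is a tau-star cover. (3) When the
explicit cover is a tau-star cover, in combinatorial terms. -/
theorem result : Nonempty (ℕ ≃ Idx) ∧ ∀ e : ℕ ≃ Idx,
    ((∀ n, IsClopen (Ustar e n)) ∧ Function.Injective (Ustar e) ∧
      (∀ n, Ustar e n ≠ Set.univ) ∧ (∀ x, {n | x ∈ Ustar e n}.Infinite) ∧
      ¬ HasGammaSubcover (Ustar e)) ∧
    (unbNum < domNum ∨ ¬ HasTower domNum →
      (CantorSatisfiesTauStarGamma ↔ ¬ IsTauStarCover (Ustar e))) ∧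
    (∀ (U : ℕ → Set (ℕ → Bool)) (B : (ℕ → Bool) → Set ℕ), (∀ n, IsOpen (U n)) →
      IsLinearRefinement U B → ¬ HasGammaSubcover U →
      (coinitiality B < domNum ∨ unbNum < coinitiality B) → IsTauStarCover (Ustar e)) ∧
    (IsTauStarCover (Ustar e) ↔ ∃ 𝒯 : Set (Set Idx), (∀ T ∈ 𝒯, T.Infinite) ∧
      (∀ T ∈ 𝒯, ∀ T' ∈ 𝒯, (T \ T').Finite ∨ (T' \ T).Finite) ∧
      ∀ F : ∀ n : ℕ, Fin (n + 1) → Bool, ∃ T ∈ 𝒯, {n | (⟨n, F n⟩ : Idx) ∈ T}.Finite) := by
  refine ⟨?_, fun e => ⟨⟨isClopen_Ustar e, injective_Ustar e, Ustar_ne_univ e, large_Ustar e,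
    not_gamma_Ustar e⟩, cantorSatisfies_iff e, fun U B hU hB hno hκ =>
      tauStar_Ustar_of_refinement e hU hB hno hκ, tauStar_Ustar_iff e⟩⟩
  have := infinite_Idx
  obtain ⟨_⟩ := nonempty_denumerable Idx
  exact ⟨(Denumerable.eqv Idx).symm⟩

end Pool.Agent.Results.MP_b2422a_gt.ExplicitCover
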