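import Mathlib
import Pool.Agent.TauStar.Defs
import Pool.Agent.TSN.Meas
import Pool.Agent.TSN63.NoTower
import Pool.Agent.TSN63.AddN

/-!
# Q1 is decided by `non(SN)`, `p`, `add(N)` and the lengths of towers
-/

set_option autoImplicit false

namespace Pool.Agent.Results.MP_b2422a_gt.TowersDecide

open Pool.Agent.TauStar Pool.Agent.TSN

/-- (1) The Cantor space does NOT satisfy `(T* choose Gamma)` if `non(SN) ≤ p` or
`non(SN) ≤ add(N)`, in particular if `p = c` or under CH. (2) It does if no tower has regular length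
in `[cov(M), non(M)]`, in particular if `non(M) < cov(M)`. (3) In ZFC: a clopen cover without
gamma-subcover which is tau-star on `Z ∪ (Z + G)` for every set `Z` of at most `p` points, `G` a set
of measure one. -/
theorem result :
    ((Cardinal.continuum.{0} = Cardinal.aleph.{0} 1 ∨ pNum = Cardinal.continuum.{0} ∨
      nonSN ≤ pNum ∨ nonSN ≤ addN) → ¬ CantorSatisfiesTauStarGamma) ∧
    ((∀ κ : Cardinal.{0}, κ.IsRegular → covM ≤ κ → κ ≤ nonM → ¬ HasTower κ) →
      CantorSatisfiesTauStarGamma) ∧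
    (nonM < covM → CantorSatisfiesTauStarGamma) ∧
    (∃ U : ℕ → Set (ℕ → Bool), (∀ n, IsClopen (U n)) ∧ Function.Injective U ∧
      (∀ n, U n ≠ Set.univ) ∧ (∀ x, {n | x ∈ U n}.Infinite) ∧ ¬ HasGammaSubcover U ∧
      ∀ X Z : Set (ℕ → Bool), Cardinal.mk Z ≤ pNum →
        (∀ x ∈ X, x ∈ Z ∨ ∃ z ∈ Z, xadd x z ∈ GG) →
        ∃ B : (ℕ → Bool) → Set ℕ, (∀ x ∈ X, B x ⊆ {n | x ∈ U n} ∧ (B x).Infinite) ∧
          ∀ x ∈ X, ∀ y ∈ X, (B x \ B y).Finite ∨ (B y \ B x).Finite) ∧
    ∀ᵐ x ∂coinMeasure, x ∈ GG := by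
  refine ⟨?_, gamma_of_no_tower, fun h => gamma_of_no_tower fun κ _ h1 h2 =>
    absurd (h1.trans h2) (not_le.2 h), exists_cover_translates, measure_GG⟩
  rintro (h | h | h | h)
  · exact not_cantorSatisfies_all (Or.inl h)
  · exact not_cantorSatisfies_of_nonSN (by rw [h]; exact nonSN_le_continuum)
  · exact not_cantorSatisfies_of_nonSN h
  · exact not_cantorSatisfies_of_addN h

end Pool.Agent.Results.MP_b2422a_gt.TowersDecide
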